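import Mathlib

/-!
Local geometry of `C³` isometric immersions of the metric `r² du² + (R + s cos u)² dv²` in `ℝ³`.
-/

set_option autoImplicit false

namespace Pool.Agent.R749.Torus

open scoped RealInnerProductSpace ContDiff Topology
open Real

abbrev E3 : Type := EuclideanSpace ℝ (Fin 3)

section
variable {V : Type*} [NormedAddCommGroup V] [NormedSpace ℝ V]

/-- The derivative of `G` in the direction `w`. -/
noncomputable def D (w : ℝ × ℝ) (G : ℝ × ℝ → V) : ℝ × ℝ → V := fun x => fderiv ℝ G x w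

theorem D_contDiff {G : ℝ × ℝ → V} {m n : WithTop ℕ∞} (hG : ContDiff ℝ n G) (h : m + 1 ≤ n)
    (w : ℝ × ℝ) : ContDiff ℝ m (D w G) := by
  unfold D
  exact (hG.fderiv_right h).clm_apply contDiff_const

theorem D_comm {G : ℝ × ℝ → V} (hG : ContDiff ℝ 2 G) (u v : ℝ × ℝ) (x : ℝ × ℝ) :
    D u (D v G) x = D v (D u G) x := by
  have h1 : ∀ a b : ℝ × ℝ, D a (D b G) x = fderiv ℝ (fderiv ℝ G) x a b := by
    intro a b
    unfold D
    have hd : DifferentiableAt ℝ (fderiv ℝ G) x :=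
      ((hG.fderiv_right (m := 1) (by norm_num)).differentiable (by norm_num)) x
    rw [fderiv_clm_apply hd (differentiableAt_const b)]
    simp
  rw [h1, h1]
  have := (hG.contDiffAt (x := x)).isSymmSndFDerivAt (by
    rw [minSmoothness_of_isRCLikeNormedField])
  exact this u v

theorem D_const (c : V) (u : ℝ × ℝ) : D u (fun _ : ℝ × ℝ => c) = fun _ => 0 := by
  funext x; simp [D]

end

theorem D_inner {G H : ℝ × ℝ → E3} {x : ℝ × ℝ} (h1 : DifferentiableAt ℝ G x)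
    (h2 : DifferentiableAt ℝ H x) (u : ℝ × ℝ) :
    D u (fun x => ⟪G x, H x⟫) x = ⟪G x, D u H x⟫ + ⟪D u G x, H x⟫ := by
  unfold D
  rw [fderiv_inner_apply ℝ h1 h2]

/-- The cross product. -/
noncomputable def cr (x y : E3) : E3 :=
  !₂[x 1 * y 2 - x 2 * y 1, x 2 * y 0 - x 0 * y 2, x 0 * y 1 - x 1 * y 0]

theorem inner3 (x y : E3) : ⟪x, y⟫ = x 0 * y 0 + x 1 * y 1 + x 2 * y 2 := by
  simp [PiLp.inner_apply, Fin.sum_univ_three]
  ring

theorem cr0 (x y : E3) : cr x y 0 = x 1 * y 2 - x 2 * y 1 := rfl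
theorem cr1 (x y : E3) : cr x y 1 = x 2 * y 0 - x 0 * y 2 := rfl
theorem cr2 (x y : E3) : cr x y 2 = x 0 * y 1 - x 1 * y 0 := rfl

theorem cr_left (x y : E3) : ⟪cr x y, x⟫ = 0 := by
  rw [inner3, cr0, cr1, cr2]; ring

theorem cr_right (x y : E3) : ⟪cr x y, y⟫ = 0 := by
  rw [inner3, cr0, cr1, cr2]; ring

theorem cr_self (x y : E3) : ⟪cr x y, cr x y⟫ = ⟪x, x⟫ * ⟪y, y⟫ - ⟪x, y⟫ ^ 2 := by
  rw [inner3, inner3, inner3, inner3, cr0, cr1, cr2]; ring

theorem cr_contDiff {n : WithTop ℕ∞} {G H : ℝ × ℝ → E3} (hG : ContDiff ℝ n G)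
    (hH : ContDiff ℝ n H) : ContDiff ℝ n (fun p => cr (G p) (H p)) := by
  rw [contDiff_euclidean] at hG hH ⊢
  intro i
  fin_cases i
  · exact ((hG 1).mul (hH 2)).sub ((hG 2).mul (hH 1))
  · exact ((hG 2).mul (hH 0)).sub ((hG 0).mul (hH 2))
  · exact ((hG 0).mul (hH 1)).sub ((hG 1).mul (hH 0))

/-- Parseval's identity for an orthogonal frame. -/
theorem parseval (a b n : E3) (α β : ℝ) (hα : α ≠ 0) (hβ : β ≠ 0) (haa : ⟪a, a⟫ = α ^ 2)
    (hbb : ⟪b, b⟫ = β ^ 2) (hnn : ⟪n, n⟫ = 1) (hab : ⟪a, b⟫ = 0) (hna : ⟪n, a⟫ = 0)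
    (hnb : ⟪n, b⟫ = 0) (x y : E3) :
    ⟪x, y⟫ = ⟪x, a⟫ * ⟪y, a⟫ / α ^ 2 + ⟪x, b⟫ * ⟪y, b⟫ / β ^ 2 + ⟪x, n⟫ * ⟪y, n⟫ := by
  have hon : Orthonormal ℝ ![α⁻¹ • a, β⁻¹ • b, n] := by
    rw [orthonormal_iff_ite]
    intro i j
    have hba : ⟪b, a⟫ = 0 := by rw [real_inner_comm]; exact hab
    have han : ⟪a, n⟫ = 0 := by rw [real_inner_comm]; exact hna
    have hbn : ⟪b, n⟫ = 0 := by rw [real_inner_comm]; exact hnb
    fin_cases i <;> fin_cases j <;>
      simp only [Fin.zero_eta, Fin.mk_one, Fin.reduceFinMk, Matrix.cons_val_zero,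
        Matrix.cons_val_one, Matrix.cons_val, real_inner_smul_left,
        real_inner_smul_right, haa, hbb, hnn, hab, hna, hnb, hba, han, hbn, mul_zero, if_true,
        Fin.isValue, Fin.reduceEq, if_false, zero_ne_one, one_ne_zero]
    · field_simp
    · field_simp
  have hcard : Fintype.card (Fin 3) = Module.finrank ℝ E3 := by simp
  have hspan : ⊤ ≤ Submodule.span ℝ (Set.range ![α⁻¹ • a, β⁻¹ • b, n]) := by
    have := (basisOfOrthonormalOfCardEqFinrank hon hcard).span_eq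
    rw [coe_basisOfOrthonormalOfCardEqFinrank] at this
    exact this.ge
  have h := (OrthonormalBasis.mk hon hspan).sum_inner_mul_inner x y
  rw [OrthonormalBasis.coe_mk, Fin.sum_univ_three] at h
  simp only [Matrix.cons_val_zero, Matrix.cons_val_one, Matrix.cons_val, 
    real_inner_smul_left, real_inner_smul_right] at h
  rw [← h, real_inner_comm y a, real_inner_comm y b, real_inner_comm y n]
  field_simp

theorem eq_smul_of_orth (a b n : E3) (α β : ℝ) (hα : α ≠ 0) (hβ : β ≠ 0) (haa : ⟪a, a⟫ = α ^ 2)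
    (hbb : ⟪b, b⟫ = β ^ 2) (hnn : ⟪n, n⟫ = 1) (hab : ⟪a, b⟫ = 0) (hna : ⟪n, a⟫ = 0)
    (hnb : ⟪n, b⟫ = 0) (x : E3) (hx : ‖x‖ = 1) (hxa : ⟪x, a⟫ = 0) (hxb : ⟪x, b⟫ = 0) :
    x = n ∨ x = -n := by
  have P := parseval a b n α β hα hβ haa hbb hnn hab hna hnb
  have h1 : ⟪x, n⟫ * ⟪x, n⟫ = 1 := by
    have := P x x
    rw [hxa, hxb, real_inner_self_eq_norm_sq, hx] at this
    simp only [mul_zero, zero_div, zero_add, one_pow] at this
    exact this.symm
  have h2 : x = ⟪x, n⟫ • n := by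
    apply ext_inner_right ℝ
    intro y
    rw [P x y, hxa, hxb, real_inner_smul_left]
    rw [real_inner_comm n y]
    ring
  have h3 : (⟪x, n⟫ - 1) * (⟪x, n⟫ + 1) = 0 := by linarith
  rcases mul_eq_zero.1 h3 with h | h
  · left
    have : ⟪x, n⟫ = 1 := by linarith
    rw [h2, this, one_smul]
  · right
    have : ⟪x, n⟫ = -1 := by linarith
    rw [h2, this, neg_one_smul]

end Pool.Agent.R749.Torus
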