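import Pool.Agent.R749.Torus1

/-!
Second fundamental form and Gauss map of a `C³` isometric immersion of
`r² du² + (R + s cos u)² dv²` in `ℝ³`.
-/

set_option autoImplicit false

namespace Pool.Agent.R749.Torus

open scoped RealInnerProductSpace ContDiff Topology
open Real

/-- The directions of the two coordinates. -/
abbrev ea : ℝ × ℝ := (1, 0)
abbrev eb : ℝ × ℝ := (0, 1)

/-- The data of an isometric immersion. -/
structure Imm (R r s : ℝ) (f : ℝ × ℝ → E3) : Prop where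
  hs : 0 < s
  hsr : s < r
  hrR : r < R
  smooth : ContDiff ℝ 3 f
  hE : ∀ p, ⟪D ea f p, D ea f p⟫ = r ^ 2
  hF : ∀ p, ⟪D ea f p, D eb f p⟫ = 0
  hG : ∀ p, ⟪D eb f p, D eb f p⟫ = (R + s * cos p.1) ^ 2

/-- `φ`. -/
noncomputable def ph (R s : ℝ) (p : ℝ × ℝ) : ℝ := R + s * cos p.1

theorem ph_contDiff (R s : ℝ) {n : WithTop ℕ∞} : ContDiff ℝ n (ph R s) := by
  unfold ph
  exact contDiff_const.add (contDiff_const.mul (Real.contDiff_cos.comp contDiff_fst))

theorem ph_hasFDeriv (R s : ℝ) (p : ℝ × ℝ) :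
    HasFDerivAt (ph R s) ((-(s * sin p.1)) • ContinuousLinearMap.fst ℝ ℝ ℝ) p := by
  have h1 : HasFDerivAt (fun p : ℝ × ℝ => p.1) (ContinuousLinearMap.fst ℝ ℝ ℝ) p :=
    hasFDerivAt_fst
  have h2 : HasFDerivAt (fun p : ℝ × ℝ => cos p.1) ((-sin p.1) • ContinuousLinearMap.fst ℝ ℝ ℝ) p :=
    h1.cos
  have h3 := (h2.const_mul s).const_add R
  refine h3.congr_fderiv ?_
  rw [smul_smul]
  congr 1
  ring

theorem sin_hasFDeriv (p : ℝ × ℝ) :
    HasFDerivAt (fun p : ℝ × ℝ => sin p.1) (cos p.1 • ContinuousLinearMap.fst ℝ ℝ ℝ) p :=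
  (hasFDerivAt_fst : HasFDerivAt (fun p : ℝ × ℝ => p.1) (ContinuousLinearMap.fst ℝ ℝ ℝ) p).sin

variable {R r s : ℝ} {f : ℝ × ℝ → E3}

namespace Imm

variable (h : Imm R r s f)
include h

theorem r_pos : 0 < r := h.hs.trans h.hsr

theorem ph_pos (p : ℝ × ℝ) : 0 < ph R s p := by
  unfold ph
  have h1 := neg_one_le_cos p.1
  have := h.hs
  have := h.hsr
  have := h.hrR
  nlinarith

theorem cfu : ContDiff ℝ 2 (D ea f) := D_contDiff h.smooth (by norm_num) _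
theorem cfv : ContDiff ℝ 2 (D eb f) := D_contDiff h.smooth (by norm_num) _
theorem cfuu : ContDiff ℝ 1 (D ea (D ea f)) := D_contDiff h.cfu (by norm_num) _
theorem cfvu : ContDiff ℝ 1 (D eb (D ea f)) := D_contDiff h.cfu (by norm_num) _
theorem cfuv : ContDiff ℝ 1 (D ea (D eb f)) := D_contDiff h.cfv (by norm_num) _
theorem cfvv : ContDiff ℝ 1 (D eb (D eb f)) := D_contDiff h.cfv (by norm_num) _

theorem comm (p : ℝ × ℝ) : D eb (D ea f) p = D ea (D eb f) p :=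
  D_comm (h.smooth.of_le (by norm_num)) _ _ _

theorem comm' : D eb (D ea f) = D ea (D eb f) := funext h.comm

theorem dfu (p : ℝ × ℝ) : DifferentiableAt ℝ (D ea f) p := h.cfu.differentiable (by norm_num) p
theorem dfv (p : ℝ × ℝ) : DifferentiableAt ℝ (D eb f) p := h.cfv.differentiable (by norm_num) p

theorem r1 (p : ℝ × ℝ) : ⟪D ea (D ea f) p, D ea f p⟫ = 0 := by
  have h1 := D_inner (h.dfu p) (h.dfu p) ea
  rw [show (fun x => ⟪D ea f x, D ea f x⟫) = fun _ => r ^ 2 from funext h.hE, D_const,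
    real_inner_comm (D ea f p)] at h1
  have h2 := real_inner_comm (D ea f p) (D ea (D ea f) p)
  linarith

theorem r2 (p : ℝ × ℝ) : ⟪D ea (D eb f) p, D ea f p⟫ = 0 := by
  have h1 := D_inner (h.dfu p) (h.dfu p) eb
  rw [show (fun x => ⟪D ea f x, D ea f x⟫) = fun _ => r ^ 2 from funext h.hE, D_const,
    h.comm p] at h1
  have h2 := real_inner_comm (D ea f p) (D ea (D eb f) p)
  simp only at h1
  linarith

theorem DG (w : ℝ × ℝ) (p : ℝ × ℝ) : D w (fun x => ⟪D eb f x, D eb f x⟫) p =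
    -(2 * s * sin p.1 * ph R s p * w.1) := by
  have e : (fun x => ⟪D eb f x, D eb f x⟫) = fun x => ph R s x ^ 2 := funext h.hG
  rw [e]
  have h1 := (ph_hasFDeriv R s p).pow 2
  unfold D
  rw [h1.fderiv]
  simp
  ring

theorem r3 (p : ℝ × ℝ) : ⟪D ea (D eb f) p, D eb f p⟫ = -(s * sin p.1 * ph R s p) := by
  have h1 := D_inner (h.dfv p) (h.dfv p) ea
  rw [h.DG] at h1
  have h2 := real_inner_comm (D eb f p) (D ea (D eb f) p)
  simp only at h1
  linarith

theorem r4 (p : ℝ × ℝ) : ⟪D eb (D eb f) p, D eb f p⟫ = 0 := by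
  have h1 := D_inner (h.dfv p) (h.dfv p) eb
  rw [h.DG] at h1
  have h2 := real_inner_comm (D eb f p) (D eb (D eb f) p)
  simp only at h1
  linarith

theorem r5 (p : ℝ × ℝ) : ⟪D ea (D ea f) p, D eb f p⟫ = 0 := by
  have h1 := D_inner (h.dfu p) (h.dfv p) ea
  rw [show (fun x => ⟪D ea f x, D eb f x⟫) = fun _ => (0 : ℝ) from funext h.hF, D_const] at h1
  have h2 := real_inner_comm (D ea f p) (D ea (D eb f) p)
  have h3 := h.r2 p
  simp only at h1
  linarith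

theorem r6 (p : ℝ × ℝ) : ⟪D eb (D eb f) p, D ea f p⟫ = s * sin p.1 * ph R s p := by
  have h1 := D_inner (h.dfu p) (h.dfv p) eb
  rw [show (fun x => ⟪D ea f x, D eb f x⟫) = fun _ => (0 : ℝ) from funext h.hF, D_const,
    h.comm p] at h1
  have h2 := real_inner_comm (D ea f p) (D eb (D eb f) p)
  have h3 := h.r3 p
  simp only at h1
  linarith

/-- The equation of Gauss. -/
theorem gauss (p : ℝ × ℝ) : ⟪D ea (D ea f) p, D eb (D eb f) p⟫ -
    ⟪D ea (D eb f) p, D ea (D eb f) p⟫ = s * cos p.1 * ph R s p - (s * sin p.1) ^ 2 := by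
  have d1 : DifferentiableAt ℝ (D ea (D ea f)) p := h.cfuu.differentiable (by norm_num) p
  have d2 : DifferentiableAt ℝ (D ea (D eb f)) p := h.cfuv.differentiable (by norm_num) p
  have h1 := D_inner d1 (h.dfv p) eb
  rw [show (fun x => ⟪D ea (D ea f) x, D eb f x⟫) = fun _ => (0 : ℝ) from funext h.r5,
    D_const] at h1
  have h2 := D_inner d2 (h.dfv p) ea
  rw [show (fun x => ⟪D ea (D eb f) x, D eb f x⟫) = fun x => -(s * sin x.1 * ph R s x) from
    funext h.r3] at h2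
  have h3 : D ea (fun x : ℝ × ℝ => -(s * sin x.1 * ph R s x)) p =
      -(s * cos p.1 * ph R s p) + (s * sin p.1) ^ 2 := by
    have e := (((sin_hasFDeriv p).const_mul s).mul (ph_hasFDeriv R s p)).neg
    unfold D
    have e' : fderiv ℝ (fun x : ℝ × ℝ => -(s * sin x.1 * ph R s x)) p = _ := e.fderiv
    rw [e']
    simp
    ring
  rw [h3] at h2
  have h4 : D eb (D ea (D ea f)) p = D ea (D ea (D eb f)) p := by
    rw [D_comm h.cfu eb ea, h.comm']
  rw [h4] at h1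
  simp only at h1
  linarith

end Imm

/-- The unit normal. -/
noncomputable def nrm (R r s : ℝ) (f : ℝ × ℝ → E3) (p : ℝ × ℝ) : E3 :=
  (r * ph R s p)⁻¹ • cr (D ea f p) (D eb f p)

namespace Imm

variable (h : Imm R r s f)
include h

theorem nrm_contDiff : ContDiff ℝ 2 (nrm R r s f) := by
  have h1 : ContDiff ℝ 2 (fun p : ℝ × ℝ => (r * ph R s p)⁻¹) := by
    refine ContDiff.inv (contDiff_const.mul (ph_contDiff R s)) ?_
    intro p
    exact (mul_pos h.r_pos (h.ph_pos p)).ne'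
  exact h1.smul (cr_contDiff h.cfu h.cfv)

theorem dn (p : ℝ × ℝ) : DifferentiableAt ℝ (nrm R r s f) p :=
  h.nrm_contDiff.differentiable (by norm_num) p

theorem na (p : ℝ × ℝ) : ⟪nrm R r s f p, D ea f p⟫ = 0 := by
  unfold nrm
  rw [real_inner_smul_left, cr_left, mul_zero]

theorem nb (p : ℝ × ℝ) : ⟪nrm R r s f p, D eb f p⟫ = 0 := by
  unfold nrm
  rw [real_inner_smul_left, cr_right, mul_zero]

theorem nn (p : ℝ × ℝ) : ⟪nrm R r s f p, nrm R r s f p⟫ = 1 := by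
  unfold nrm
  have h1 := h.r_pos.ne'
  have h2 := (h.ph_pos p).ne'
  rw [real_inner_smul_left, real_inner_smul_right, cr_self, h.hE, h.hF, h.hG]
  change (r * ph R s p)⁻¹ * ((r * ph R s p)⁻¹ * (r ^ 2 * ph R s p ^ 2 - 0 ^ 2)) = 1
  field_simp
  ring

theorem pars (p : ℝ × ℝ) (x y : E3) :
    ⟪x, y⟫ = ⟪x, D ea f p⟫ * ⟪y, D ea f p⟫ / r ^ 2 +
      ⟪x, D eb f p⟫ * ⟪y, D eb f p⟫ / ph R s p ^ 2 +
      ⟪x, nrm R r s f p⟫ * ⟪y, nrm R r s f p⟫ :=
  parseval _ _ _ r (ph R s p) h.r_pos.ne' (h.ph_pos p).ne' (h.hE p) (h.hG p) (h.nn p) (h.hF p)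
    (h.na p) (h.nb p) x y

theorem normal_unique (p : ℝ × ℝ) (x : E3) (hx : ‖x‖ = 1) (hxa : ⟪x, D ea f p⟫ = 0)
    (hxb : ⟪x, D eb f p⟫ = 0) : x = nrm R r s f p ∨ x = -nrm R r s f p :=
  eq_smul_of_orth _ _ _ r (ph R s p) h.r_pos.ne' (h.ph_pos p).ne' (h.hE p) (h.hG p) (h.nn p)
    (h.hF p) (h.na p) (h.nb p) x hx hxa hxb

/-- `L N - M²`. -/
theorem lnm (p : ℝ × ℝ) :
    ⟪D ea (D ea f) p, nrm R r s f p⟫ * ⟪D eb (D eb f) p, nrm R r s f p⟫ -
      ⟪D ea (D eb f) p, nrm R r s f p⟫ ^ 2 = s * cos p.1 * ph R s p := by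
  have h1 := h.gauss p
  rw [h.pars p (D ea (D ea f) p) (D eb (D eb f) p),
    h.pars p (D ea (D eb f) p) (D ea (D eb f) p), h.r1, h.r2, h.r3, h.r4, h.r5, h.r6] at h1
  have h2 : -(s * sin p.1 * ph R s p) * -(s * sin p.1 * ph R s p) / ph R s p ^ 2 =
      (s * sin p.1) ^ 2 := by
    have := (h.ph_pos p).ne'
    field_simp
  rw [h2] at h1
  simp only [zero_mul, zero_div, zero_add, mul_zero] at h1
  linarith

theorem dna (w : ℝ × ℝ) (p : ℝ × ℝ) :
    ⟪D w (nrm R r s f) p, D ea f p⟫ = -⟪nrm R r s f p, D w (D ea f) p⟫ := by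
  have h1 := D_inner (h.dn p) (h.dfu p) w
  rw [show (fun x => ⟪nrm R r s f x, D ea f x⟫) = fun _ => (0 : ℝ) from funext h.na,
    D_const] at h1
  simp only at h1
  linarith

theorem dnb (w : ℝ × ℝ) (p : ℝ × ℝ) :
    ⟪D w (nrm R r s f) p, D eb f p⟫ = -⟪nrm R r s f p, D w (D eb f) p⟫ := by
  have h1 := D_inner (h.dn p) (h.dfv p) w
  rw [show (fun x => ⟪nrm R r s f x, D eb f x⟫) = fun _ => (0 : ℝ) from funext h.nb,
    D_const] at h1
  simp only at h1
  linarith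

theorem dnn (w : ℝ × ℝ) (p : ℝ × ℝ) : ⟪D w (nrm R r s f) p, nrm R r s f p⟫ = 0 := by
  have h1 := D_inner (h.dn p) (h.dn p) w
  rw [show (fun x => ⟪nrm R r s f x, nrm R r s f x⟫) = fun _ => (1 : ℝ) from funext h.nn,
    D_const] at h1
  have h2 := real_inner_comm (nrm R r s f p) (D w (nrm R r s f) p)
  simp only at h1
  linarith

/-- The Gram determinant of the derivatives of the Gauss map. -/
theorem gram (p : ℝ × ℝ) :
    ⟪D ea (nrm R r s f) p, D ea (nrm R r s f) p⟫ * ⟪D eb (nrm R r s f) p, D eb (nrm R r s f) p⟫ -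
      ⟪D ea (nrm R r s f) p, D eb (nrm R r s f) p⟫ ^ 2 = (s * cos p.1 / r) ^ 2 := by
  have h1 := h.lnm p
  rw [h.pars p (D ea (nrm R r s f) p) (D ea (nrm R r s f) p),
    h.pars p (D eb (nrm R r s f) p) (D eb (nrm R r s f) p),
    h.pars p (D ea (nrm R r s f) p) (D eb (nrm R r s f) p)]
  simp only [h.dna, h.dnb, h.dnn, h.comm]
  rw [real_inner_comm (nrm R r s f p), real_inner_comm (nrm R r s f p),
    real_inner_comm (nrm R r s f p)] at h1
  have h2 := h.r_pos.ne'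
  have h3 := (h.ph_pos p).ne'
  set L := ⟪nrm R r s f p, D ea (D ea f) p⟫
  set M := ⟪nrm R r s f p, D ea (D eb f) p⟫
  set N := ⟪nrm R r s f p, D eb (D eb f) p⟫
  set q := ph R s p
  have h4 : (s * cos p.1 / r) ^ 2 = (L * N - M ^ 2) ^ 2 / (r ^ 2 * q ^ 2) := by
    rw [h1]
    field_simp
  rw [h4]
  field_simp
  ring

end Imm

end Pool.Agent.R749.Torus
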