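import Pool.Agent.R749.Torus2

/-!
The area of the Gauss image of the support points of a doubly periodic isometric immersion of
`r² du² + (R + s cos u)² dv²` is too small when `s < r`.
-/

set_option autoImplicit false

namespace Pool.Agent.R749.Torus

open scoped RealInnerProductSpace ContDiff Topology
open Real Set MeasureTheory

theorem D_lin {V : Type*} [NormedAddCommGroup V] [NormedSpace ℝ V] {G : ℝ × ℝ → V} (x y : ℝ) :
    D (x, y) G = fun p => x • D ea G p + y • D eb G p := by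
  funext p
  have : ((x, y) : ℝ × ℝ) = x • ea + y • eb := by simp [ea, eb]
  unfold D
  rw [this, map_add, map_smul, map_smul]

theorem second_deriv_nonpos {g : ℝ → ℝ} {x : ℝ} (hc : ContinuousAt g x)
    (h : IsLocalMax g x) : deriv (deriv g) x ≤ 0 := by
  by_contra hcon
  push Not at hcon
  have h0 : deriv g x = 0 := h.deriv_eq_zero
  have h1 := isLocalMin_of_deriv_deriv_pos hcon h0 hc
  have h2 : g =ᶠ[𝓝 x] fun _ => g x := by
    filter_upwards [h, h1] with y hy hy'
    exact le_antisymm hy hy'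
  have h3 : deriv g =ᶠ[𝓝 x] deriv (fun _ => g x) := h2.deriv
  have h4 := h3.deriv_eq
  simp at h4
  linarith

theorem deriv_line {H : ℝ × ℝ → ℝ} (hH : Differentiable ℝ H) (p w : ℝ × ℝ) :
    deriv (fun t : ℝ => H (p + t • w)) = fun t => D w H (p + t • w) := by
  funext t
  have h1 : HasDerivAt (fun t : ℝ => p + t • w) w t := by
    simpa using ((hasDerivAt_id t).smul_const w).const_add p
  exact ((hH (p + t • w)).hasFDerivAt.comp_hasDerivAt t h1).deriv

theorem D_D_nonpos {H : ℝ × ℝ → ℝ} (hH : ContDiff ℝ 2 H) (p w : ℝ × ℝ) (h : ∀ q, H q ≤ H p) :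
    D w (D w H) p ≤ 0 := by
  have h1 : Differentiable ℝ H := hH.differentiable (by norm_num)
  have h2 : Differentiable ℝ (D w H) :=
    (D_contDiff (m := 1) hH (by norm_num) w).differentiable (by norm_num)
  have hmax : IsLocalMax (fun t : ℝ => H (p + t • w)) 0 := by
    apply Filter.Eventually.of_forall
    intro t
    simpa using h (p + t • w)
  have hcont : Continuous (fun t : ℝ => H (p + t • w)) := by
    have := hH.continuous
    fun_prop
  have h3 := second_deriv_nonpos hcont.continuousAt hmax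
  rw [deriv_line h1, deriv_line h2] at h3
  simpa using h3

theorem quad_nonneg {L M N : ℝ} (h : ∀ x y : ℝ, x ^ 2 * L + 2 * (x * y) * M + y ^ 2 * N ≤ 0) :
    0 ≤ L * N - M ^ 2 := by
  have h1 := h 1 0
  have h2 := h M (-L)
  have h1' : L ≤ 0 := by linarith
  rcases h1'.lt_or_eq with h3 | h3
  · by_contra hc
    push Not at hc
    have : 0 < L * (L * N - M ^ 2) := mul_pos_of_neg_of_neg h3 hc
    nlinarith
  · subst h3
    have h4 : M = 0 := by
      by_contra hM
      have h5 := h ((|N| + 1) / (2 * M)) 1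
      have h6 : 2 * ((|N| + 1) / (2 * M) * 1) * M = |N| + 1 := by field_simp
      rw [h6] at h5
      have := neg_abs_le N
      simp at h5
      linarith
    rw [h4]; simp

variable {R r s : ℝ} {f : ℝ × ℝ → E3}

namespace Imm

variable (h : Imm R r s f)
include h

theorem D_inner_const (ξ : E3) {G : ℝ × ℝ → E3} (hG : Differentiable ℝ G) (w : ℝ × ℝ) :
    D w (fun q => ⟪G q, ξ⟫) = fun q => ⟪D w G q, ξ⟫ := by
  funext q
  rw [D_inner (hG q) (differentiableAt_const ξ), D_const]
  simp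

theorem max_first (ξ : E3) (p : ℝ × ℝ) (hmax : ∀ q, ⟪f q, ξ⟫ ≤ ⟪f p, ξ⟫) (w : ℝ × ℝ) :
    ⟪D w f p, ξ⟫ = 0 := by
  have hl : IsLocalMax (fun q => ⟪f q, ξ⟫) p := Filter.Eventually.of_forall hmax
  have h1 := hl.fderiv_eq_zero
  have h2 := congrFun (h.D_inner_const ξ (h.smooth.differentiable (by norm_num)) w) p
  rw [← h2]
  unfold D
  rw [h1]; rfl

theorem max_second (ξ : E3) (p : ℝ × ℝ) (hmax : ∀ q, ⟪f q, ξ⟫ ≤ ⟪f p, ξ⟫) (x y : ℝ) :
    x ^ 2 * ⟪D ea (D ea f) p, ξ⟫ + 2 * (x * y) * ⟪D ea (D eb f) p, ξ⟫ +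
      y ^ 2 * ⟪D eb (D eb f) p, ξ⟫ ≤ 0 := by
  have hH : ContDiff ℝ 2 (fun q => ⟪f q, ξ⟫) :=
    (h.smooth.of_le (by norm_num)).inner ℝ contDiff_const
  have h1 := D_D_nonpos hH p (x, y) hmax
  have hd : Differentiable ℝ f := h.smooth.differentiable (by norm_num)
  have hdw : Differentiable ℝ (D (x, y) f) :=
    (D_contDiff (m := 2) h.smooth (by norm_num) _).differentiable (by norm_num)
  rw [h.D_inner_const ξ hd, h.D_inner_const ξ hdw] at h1
  have e : D (x, y) (D (x, y) f) p = (x ^ 2) • D ea (D ea f) p +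
      (2 * (x * y)) • D ea (D eb f) p + (y ^ 2) • D eb (D eb f) p := by
    have e1 : ∀ w, D w (D (x, y) f) p = x • D w (D ea f) p + y • D w (D eb f) p := by
      intro w
      rw [D_lin (G := f)]
      have a1 := (h.dfu p).hasFDerivAt.const_smul x
      have a2 := (h.dfv p).hasFDerivAt.const_smul y
      have a3 := (a1.add a2).fderiv
      unfold D at a3 ⊢
      have a4 : fderiv ℝ (fun p => x • (fderiv ℝ f p) ea + y • (fderiv ℝ f p) eb) p =
        x • fderiv ℝ (fun x => (fderiv ℝ f x) ea) p + y • fderiv ℝ (fun x => (fderiv ℝ f x) eb) p :=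
        a3
      rw [a4]
      rfl
    rw [D_lin (G := D (x, y) f)]
    simp only [e1]
    rw [h.comm p]
    simp only [smul_add, smul_smul]
    rw [two_mul, add_smul, pow_two, pow_two, mul_comm y x]
    abel
  simp only [e] at h1
  rw [inner_add_left, inner_add_left, real_inner_smul_left, real_inner_smul_left,
    real_inner_smul_left] at h1
  exact h1

/-- At a maximum point of the height function in the direction `ξ` the normal is `±ξ` and
`cos u ≥ 0`. -/
theorem max_point (ξ : E3) (hξ : ‖ξ‖ = 1) (p : ℝ × ℝ) (hmax : ∀ q, ⟪f q, ξ⟫ ≤ ⟪f p, ξ⟫) :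
    (ξ = nrm R r s f p ∨ ξ = -nrm R r s f p) ∧ 0 ≤ cos p.1 := by
  have h1 : ξ = nrm R r s f p ∨ ξ = -nrm R r s f p := by
    apply h.normal_unique p ξ hξ
    · rw [real_inner_comm]; exact h.max_first ξ p hmax ea
    · rw [real_inner_comm]; exact h.max_first ξ p hmax eb
  refine ⟨h1, ?_⟩
  have h2 := quad_nonneg (h.max_second ξ p hmax)
  have h3 := h.lnm p
  have h4 : ⟪D ea (D ea f) p, ξ⟫ * ⟪D eb (D eb f) p, ξ⟫ - ⟪D ea (D eb f) p, ξ⟫ ^ 2 =
      s * cos p.1 * ph R s p := by
    rcases h1 with h1 | h1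
    · rw [h1]; exact h3
    · rw [h1, inner_neg_right, inner_neg_right, inner_neg_right, ← h3]; ring
  rw [h4] at h2
  have h5 := h.ph_pos p
  have h6 := h.hs
  by_contra hc
  push Not at hc
  have : s * cos p.1 * ph R s p < 0 :=
    mul_neg_of_neg_of_pos (mul_neg_of_pos_of_neg h6 hc) h5
  linarith

/-- The surface does not lie in a plane. -/
theorem not_planar (ξ : E3) (hξ : ‖ξ‖ = 1) (c : ℝ) : ¬ ∀ q, ⟪f q, ξ⟫ = c := by
  intro hc
  have hmax : ∀ p q, ⟪f q, ξ⟫ ≤ ⟪f p, ξ⟫ := fun p q => by rw [hc, hc]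
  have := (h.max_point ξ hξ (π, 0) (hmax _)).2
  simp at this
  linarith

end Imm

end Pool.Agent.R749.Torus
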