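import Pool.Agent.R749.Torus3

/-!
The area of the Gauss image of the support points of a doubly periodic isometric immersion of
`r² du² + (R + s cos u)² dv²` is too small when `s < r`.
-/

set_option autoImplicit false

namespace Pool.Agent.R749.Torus

open scoped RealInnerProductSpace ContDiff Topology ENNReal
open Real Set MeasureTheory

/-- The standard basis of `ℝ³`. -/
noncomputable def bs : Module.Basis (Fin 3) ℝ E3 := (EuclideanSpace.basisFun (Fin 3) ℝ).toBasis

theorem bs_apply (i : Fin 3) : bs i = EuclideanSpace.single i 1 := by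
  simp [bs]

theorem det_sq (A : E3 →L[ℝ] E3) :
    A.det ^ 2 = Matrix.det (Matrix.of fun i j : Fin 3 => ⟪A (bs i), A (bs j)⟫) := by
  have h1 : A.det = (LinearMap.toMatrix bs bs (A : E3 →ₗ[ℝ] E3)).det := by
    rw [LinearMap.det_toMatrix]
  rw [h1, pow_two]
  nth_rewrite 1 [← Matrix.det_transpose]
  rw [← Matrix.det_mul]
  congr 1
  ext i j
  rw [Matrix.mul_apply, Matrix.of_apply, PiLp.inner_apply]
  apply Finset.sum_congr rfl
  intro k _
  rw [Matrix.transpose_apply, LinearMap.toMatrix_apply, LinearMap.toMatrix_apply]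
  simp [bs]
  ring

/-- The projection to the first two coordinates. -/
noncomputable def pr : E3 →L[ℝ] ℝ × ℝ :=
  (EuclideanSpace.proj (0 : Fin 3) : E3 →L[ℝ] ℝ).prod (EuclideanSpace.proj (1 : Fin 3))

theorem pr_apply (x : E3) : pr x = (x 0, x 1) := rfl

/-- The last coordinate. -/
noncomputable def lc : E3 →L[ℝ] ℝ := EuclideanSpace.proj (2 : Fin 3)

theorem lc_apply (x : E3) : lc x = x 2 := rfl

/-- The cone over the Gauss map. -/
noncomputable def Psi (R r s : ℝ) (f : ℝ × ℝ → E3) (σ : ℝ) (x : E3) : E3 :=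
  (σ * lc x) • nrm R r s f (pr x)

/-- Its derivative. -/
noncomputable def DPsi (R r s : ℝ) (f : ℝ × ℝ → E3) (σ : ℝ) (x : E3) : E3 →L[ℝ] E3 :=
  (σ * lc x) • (fderiv ℝ (nrm R r s f) (pr x)).comp pr +
    (σ • lc).smulRight (nrm R r s f (pr x))

variable {R r s : ℝ} {f : ℝ × ℝ → E3}

namespace Imm

variable (h : Imm R r s f)
include h

theorem hasFDeriv (σ : ℝ) (x : E3) : HasFDerivAt (Psi R r s f σ) (DPsi R r s f σ x) x := by
  have h1 : HasFDerivAt (fun x => nrm R r s f (pr x))
      ((fderiv ℝ (nrm R r s f) (pr x)).comp pr) x :=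
    (h.dn (pr x)).hasFDerivAt.comp x pr.hasFDerivAt
  have h2 : HasFDerivAt (fun x : E3 => σ * lc x) (σ • lc) x := lc.hasFDerivAt.const_mul σ
  exact h2.smul h1

theorem det_abs (σ : ℝ) (hσ : σ ^ 2 = 1) (x : E3) :
    |(DPsi R r s f σ x).det| = (x 2) ^ 2 * |s * cos (x 0) / r| := by
  have e0 : DPsi R r s f σ x (bs 0) = (σ * x 2) • D ea (nrm R r s f) (pr x) := by
    simp [DPsi, bs_apply, lc_apply, pr_apply, D]
  have e1 : DPsi R r s f σ x (bs 1) = (σ * x 2) • D eb (nrm R r s f) (pr x) := by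
    simp [DPsi, bs_apply, lc_apply, pr_apply, D]
  have e2 : DPsi R r s f σ x (bs 2) = σ • nrm R r s f (pr x) := by
    have e3 : pr (bs 2) = 0 := by
      rw [pr_apply, bs_apply]
      simp
    have e4 : lc (bs 2) = 1 := by
      rw [lc_apply, bs_apply]
      simp
    simp [DPsi, e3, e4]
  have hd := det_sq (DPsi R r s f σ x)
  have hg := h.gram (pr x)
  have hA := h.dnn ea (pr x)
  have hB := h.dnn eb (pr x)
  have hA' : ⟪nrm R r s f (pr x), D ea (nrm R r s f) (pr x)⟫ = 0 := by
    rw [real_inner_comm]; exact hA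
  have hB' : ⟪nrm R r s f (pr x), D eb (nrm R r s f) (pr x)⟫ = 0 := by
    rw [real_inner_comm]; exact hB
  have hba := real_inner_comm (D ea (nrm R r s f) (pr x)) (D eb (nrm R r s f) (pr x))
  rw [Matrix.det_fin_three] at hd
  simp only [Matrix.of_apply, e0, e1, e2, real_inner_smul_left, real_inner_smul_right, h.nn, hA, hB, hA', hB', hba,
    mul_zero, sub_zero, add_zero, mul_one] at hd
  set a := ⟪D ea (nrm R r s f) (pr x), D ea (nrm R r s f) (pr x)⟫
  set b := ⟪D eb (nrm R r s f) (pr x), D eb (nrm R r s f) (pr x)⟫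
  set c := ⟪D ea (nrm R r s f) (pr x), D eb (nrm R r s f) (pr x)⟫
  have h3 : (pr x).1 = x 0 := rfl
  rw [h3] at hg
  have h4 : (DPsi R r s f σ x).det ^ 2 = ((x 2) ^ 2 * |s * cos (x 0) / r|) ^ 2 := by
    rw [hd, mul_pow, sq_abs, ← hg]
    have : σ ^ 6 = 1 := by
      have : σ ^ 6 = (σ ^ 2) ^ 3 := by ring
      rw [this, hσ]; ring
    linear_combination (x 2 ^ 4 * (a * b - c ^ 2)) * this
  have h5 := (sq_eq_sq_iff_abs_eq_abs _ _).1 h4
  rw [h5, abs_of_nonneg (by positivity)]

end Imm

/-- The box containing the relevant points. -/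
def box : Set E3 := {x | x 0 ∈ Icc (-(π / 2)) (π / 2) ∧ x 1 ∈ Icc (-π) π ∧ x 2 ∈ Icc (0 : ℝ) 1}

/-- The factors of the integrand. -/
noncomputable def fac (c : ℝ) : Fin 3 → ℝ → ℝ :=
  ![(Icc (-(π / 2)) (π / 2)).indicator (fun t => c * cos t), (Icc (-π) π).indicator (fun _ => 1),
    (Icc (0 : ℝ) 1).indicator (fun t => t ^ 2)]

theorem fac_integrable (c : ℝ) (i : Fin 3) : Integrable (fac c i) := by
  fin_cases i
  · change Integrable ((Icc (-(π / 2)) (π / 2)).indicator (fun t => c * cos t))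
    rw [integrable_indicator_iff measurableSet_Icc]
    exact (continuous_const.mul continuous_cos).continuousOn.integrableOn_Icc
  · change Integrable ((Icc (-π) π).indicator (fun _ => (1 : ℝ)))
    rw [integrable_indicator_iff measurableSet_Icc]
    exact continuous_const.continuousOn.integrableOn_Icc
  · change Integrable ((Icc (0 : ℝ) 1).indicator (fun t => t ^ 2))
    rw [integrable_indicator_iff measurableSet_Icc]
    exact (continuous_id.pow 2).continuousOn.integrableOn_Icc

theorem fac_integral (c : ℝ) : ∏ i, ∫ t, fac c i t = c * (4 * π / 3) := by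
  rw [Fin.prod_univ_three]
  have h0 : ∫ t, fac c 0 t = 2 * c := by
    change ∫ t, (Icc (-(π / 2)) (π / 2)).indicator (fun t => c * cos t) t = 2 * c
    rw [integral_indicator measurableSet_Icc, integral_Icc_eq_integral_Ioc,
      ← intervalIntegral.integral_of_le (by linarith [pi_pos]),
      intervalIntegral.integral_const_mul, integral_cos]
    simp
    ring
  have h1 : ∫ t, fac c 1 t = 2 * π := by
    change ∫ t, (Icc (-π) π).indicator (fun _ => (1 : ℝ)) t = 2 * π
    rw [integral_indicator measurableSet_Icc, integral_Icc_eq_integral_Ioc,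
      ← intervalIntegral.integral_of_le (by linarith [pi_pos])]
    simp
    ring
  have h2 : ∫ t, fac c 2 t = 1 / 3 := by
    change ∫ t, (Icc (0 : ℝ) 1).indicator (fun t => t ^ 2) t = 1 / 3
    rw [integral_indicator measurableSet_Icc, integral_Icc_eq_integral_Ioc,
      ← intervalIntegral.integral_of_le (by norm_num)]
    simp
    norm_num
  rw [h0, h1, h2]
  ring

theorem box_lintegral (c : ℝ) (hc : 0 ≤ c) :
    ∫⁻ x in box, ENNReal.ofReal ((x 2) ^ 2 * |c * cos (x 0)|) = ENNReal.ofReal (c * (4 * π / 3)) := by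
  have hmeas : MeasurableSet box := by
    have : box = (fun x : E3 => x 0) ⁻¹' Icc (-(π / 2)) (π / 2) ∩
        ((fun x : E3 => x 1) ⁻¹' Icc (-π) π ∩ (fun x : E3 => x 2) ⁻¹' Icc (0 : ℝ) 1) := rfl
    rw [this]
    have hc : ∀ i : Fin 3, Continuous (fun x : E3 => x i) := fun i =>
      (EuclideanSpace.proj i : E3 →L[ℝ] ℝ).continuous
    exact ((isClosed_Icc.preimage (hc 0)).inter ((isClosed_Icc.preimage (hc 1)).inter
      (isClosed_Icc.preimage (hc 2)))).measurableSet
  rw [← lintegral_indicator hmeas]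
  have e1 : ∀ x : E3, box.indicator (fun x : E3 => ENNReal.ofReal ((x 2) ^ 2 * |c * cos (x 0)|)) x =
      (fun y : Fin 3 → ℝ => ENNReal.ofReal (∏ i, fac c i (y i))) (WithLp.ofLp x) := by
    intro x
    simp only
    rw [Fin.prod_univ_three]
    change _ = ENNReal.ofReal ((Icc (-(π / 2)) (π / 2)).indicator (fun t => c * cos t) (x 0) *
      (Icc (-π) π).indicator (fun _ => 1) (x 1) * (Icc (0 : ℝ) 1).indicator (fun t => t ^ 2) (x 2))
    by_cases hx : x ∈ box
    · obtain ⟨h0, h1, h2⟩ := hx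
      rw [indicator_of_mem (show x ∈ box from ⟨h0, h1, h2⟩), indicator_of_mem h0,
        indicator_of_mem h1, indicator_of_mem h2]
      congr 1
      rw [abs_of_nonneg (mul_nonneg hc (cos_nonneg_of_mem_Icc h0))]
      ring
    · rw [indicator_of_notMem hx]
      have : ¬ (x 0 ∈ Icc (-(π / 2)) (π / 2) ∧ x 1 ∈ Icc (-π) π ∧ x 2 ∈ Icc (0 : ℝ) 1) := hx
      by_cases h0 : x 0 ∈ Icc (-(π / 2)) (π / 2)
      · by_cases h1 : x 1 ∈ Icc (-π) π
        · have h2 : x 2 ∉ Icc (0 : ℝ) 1 := fun h2 => this ⟨h0, h1, h2⟩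
          rw [indicator_of_notMem h2]; simp
        · rw [indicator_of_notMem h1]; simp
      · rw [indicator_of_notMem h0]; simp
  rw [lintegral_congr e1]
  have hmp := PiLp.volume_preserving_ofLp (Fin 3)
  have hme : MeasurableEmbedding (@WithLp.ofLp 2 (Fin 3 → ℝ)) :=
    (MeasurableEquiv.toLp 2 (Fin 3 → ℝ)).symm.measurableEmbedding
  have e2 := hmp.lintegral_comp_emb hme (fun y : Fin 3 → ℝ => ENNReal.ofReal (∏ i, fac c i (y i)))
  rw [e2, ← ofReal_integral_eq_lintegral_ofReal]
  · rw [integral_fintype_prod_volume_eq_prod, fac_integral]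
  · exact Integrable.fintype_prod_dep (fun i => fac_integrable c i)
  · apply Filter.Eventually.of_forall
    intro y
    apply Finset.prod_nonneg
    intro i _
    fin_cases i
    · change 0 ≤ (Icc (-(π / 2)) (π / 2)).indicator (fun t => c * cos t) (y 0)
      apply indicator_nonneg
      intro t ht
      exact mul_nonneg hc (cos_nonneg_of_mem_Icc ht)
    · change 0 ≤ (Icc (-π) π).indicator (fun _ => (1 : ℝ)) (y 1)
      apply indicator_nonneg
      intro t _
      exact zero_le_one
    · change 0 ≤ (Icc (0 : ℝ) 1).indicator (fun t => t ^ 2) (y 2)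
      apply indicator_nonneg
      intro t _
      positivity

end Pool.Agent.R749.Torus
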