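import Pool.Agent.R749.Torus4

/-!
There is no doubly periodic `C³` isometric immersion of `r² du² + (R + s cos u)² dv²` in `ℝ³` when
`0 < s < r < R`.
-/

set_option autoImplicit false

namespace Pool.Agent.R749.Torus

open scoped RealInnerProductSpace ContDiff Topology ENNReal
open Real Set MeasureTheory

variable {R r s : ℝ} {f : ℝ × ℝ → E3}

/-- The points of the box over which `σ n` is an outer normal of the convex hull. -/
def Sp (R r s : ℝ) (f : ℝ × ℝ → E3) (σ : ℝ) : Set E3 :=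
  {x | x 0 ∈ Icc (-π) π ∧ x 1 ∈ Icc (-π) π ∧ x 2 ∈ Icc (0 : ℝ) 1 ∧
    ∀ q, ⟪f q, σ • nrm R r s f (pr x)⟫ ≤ ⟪f (pr x), σ • nrm R r s f (pr x)⟫}

/-- Every point can be moved to the fundamental square. -/
theorem reduce (p1 : ∀ u v, f (u + 2 * π, v) = f (u, v)) (p2 : ∀ u v, f (u, v + 2 * π) = f (u, v))
    (q : ℝ × ℝ) : ∃ q' ∈ Icc (-π) π ×ˢ Icc (-π) π, f q = f q' := by
  obtain ⟨u, v⟩ := q
  have h1 : Function.Periodic (fun u => f (u, v)) (2 * π) := fun u => p1 u v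
  obtain ⟨u', hu', e1⟩ := h1.exists_mem_Ico (by positivity) u (-π)
  have h2 : Function.Periodic (fun v => f (u', v)) (2 * π) := fun v => p2 u' v
  obtain ⟨v', hv', e2⟩ := h2.exists_mem_Ico (by positivity) v (-π)
  refine ⟨(u', v'), ⟨⟨hu'.1, ?_⟩, ⟨hv'.1, ?_⟩⟩, ?_⟩
  · have := hu'.2; simp only; linarith
  · have := hv'.2; simp only; linarith
  · exact e1.trans e2

namespace Imm

variable (h : Imm R r s f)
include h

theorem exists_max (p1 : ∀ u v, f (u + 2 * π, v) = f (u, v))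
    (p2 : ∀ u v, f (u, v + 2 * π) = f (u, v)) (ξ : E3) :
    ∃ p ∈ Icc (-π) π ×ˢ Icc (-π) π, ∀ q, ⟪f q, ξ⟫ ≤ ⟪f p, ξ⟫ := by
  have hc : ContinuousOn (fun q => ⟪f q, ξ⟫) (Icc (-π) π ×ˢ Icc (-π) π) :=
    (h.smooth.continuous.inner continuous_const).continuousOn
  have hne : (Icc (-π) π ×ˢ Icc (-π) π : Set (ℝ × ℝ)).Nonempty :=
    ⟨(0, 0), ⟨⟨by simp [pi_pos.le], by simp [pi_pos.le]⟩, ⟨by simp [pi_pos.le], by simp [pi_pos.le]⟩⟩⟩
  obtain ⟨p, hp, hmax⟩ := (isCompact_Icc.prod isCompact_Icc).exists_isMaxOn hne hc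
  refine ⟨p, hp, fun q => ?_⟩
  obtain ⟨q', hq', e⟩ := reduce p1 p2 q
  rw [e]
  exact hmax hq'

theorem norm_n (p : ℝ × ℝ) : ‖nrm R r s f p‖ = 1 := by
  have := h.nn p
  rw [real_inner_self_eq_norm_sq] at this
  nlinarith [norm_nonneg (nrm R r s f p)]

theorem Sp_subset (σ : ℝ) (hσ : σ = 1 ∨ σ = -1) : Sp R r s f σ ⊆ box := by
  rintro x ⟨h0, h1, h2, h3⟩
  refine ⟨?_, h1, h2⟩
  have hn : ‖σ • nrm R r s f (pr x)‖ = 1 := by
    rw [norm_smul, h.norm_n]
    rcases hσ with rfl | rfl <;> simp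
  have h4 := (h.max_point _ hn (pr x) h3).2
  have h5 : 0 ≤ cos (x 0) := h4
  constructor
  · by_contra hc
    push Not at hc
    have : cos (-(x 0)) < 0 := by
      apply cos_neg_of_pi_div_two_lt_of_lt
      · linarith
      · have := h0.1; linarith [pi_pos]
    rw [cos_neg] at this
    linarith
  · by_contra hc
    push Not at hc
    have : cos (x 0) < 0 := by
      apply cos_neg_of_pi_div_two_lt_of_lt hc
      have := h0.2; linarith [pi_pos]
    linarith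

theorem Sp_closed (σ : ℝ) : IsClosed (Sp R r s f σ) := by
  have hc : ∀ i : Fin 3, Continuous (fun x : E3 => x i) := fun i =>
    (EuclideanSpace.proj i : E3 →L[ℝ] ℝ).continuous
  have hn : Continuous (fun x : E3 => σ • nrm R r s f (pr x)) :=
    (h.nrm_contDiff.continuous.comp pr.continuous).const_smul σ
  have e : Sp R r s f σ = ((fun x : E3 => x 0) ⁻¹' Icc (-π) π) ∩
      (((fun x : E3 => x 1) ⁻¹' Icc (-π) π) ∩ (((fun x : E3 => x 2) ⁻¹' Icc (0 : ℝ) 1) ∩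
        ⋂ q, {x : E3 | ⟪f q, σ • nrm R r s f (pr x)⟫ ≤ ⟪f (pr x), σ • nrm R r s f (pr x)⟫})) := by
    ext x
    simp [Sp]
  rw [e]
  refine (isClosed_Icc.preimage (hc 0)).inter ((isClosed_Icc.preimage (hc 1)).inter
      ((isClosed_Icc.preimage (hc 2)).inter (isClosed_iInter fun q => ?_)))
  exact isClosed_le (continuous_const.inner hn)
    ((h.smooth.continuous.comp pr.continuous).inner hn)

theorem Sp_disjoint : Disjoint (Sp R r s f 1) (Sp R r s f (-1)) := by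
  rw [Set.disjoint_left]
  rintro x ⟨-, -, -, h1⟩ ⟨-, -, -, h2⟩
  refine h.not_planar (nrm R r s f (pr x)) (h.norm_n _) ⟪f (pr x), nrm R r s f (pr x)⟫ ?_
  intro q
  have a1 := h1 q
  have a2 := h2 q
  rw [one_smul] at a1
  rw [neg_one_smul, inner_neg_right, inner_neg_right] at a2
  linarith

theorem cover (p1 : ∀ u v, f (u + 2 * π, v) = f (u, v))
    (p2 : ∀ u v, f (u, v + 2 * π) = f (u, v)) :
    Metric.ball (0 : E3) 1 ⊆ Psi R r s f 1 '' Sp R r s f 1 ∪
      Psi R r s f (-1) '' Sp R r s f (-1) := by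
  intro y hy
  have hy1 : ‖y‖ < 1 := by simpa using hy
  obtain ⟨ξ, hξ, hyξ⟩ : ∃ ξ : E3, ‖ξ‖ = 1 ∧ y = ‖y‖ • ξ := by
    by_cases h0 : y = 0
    · refine ⟨EuclideanSpace.single 0 1, by simp, by simp [h0]⟩
    · refine ⟨‖y‖⁻¹ • y, ?_, ?_⟩
      · rw [norm_smul, norm_inv, norm_norm, inv_mul_cancel₀ (norm_ne_zero_iff.2 h0)]
      · rw [smul_smul, mul_inv_cancel₀ (norm_ne_zero_iff.2 h0), one_smul]
  obtain ⟨p, hp, hmax⟩ := h.exists_max p1 p2 ξ
  have hn := (h.max_point ξ hξ p hmax).1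
  set x : E3 := !₂[p.1, p.2, ‖y‖] with hx
  have hpr : pr x = p := rfl
  have hx2 : lc x = ‖y‖ := rfl
  have hmem : ∀ σ : ℝ, ξ = σ • nrm R r s f p → x ∈ Sp R r s f σ := by
    intro σ hσ
    refine ⟨hp.1, hp.2, ⟨norm_nonneg y, hy1.le⟩, ?_⟩
    rw [hpr, ← hσ]
    exact hmax
  have hval : ∀ σ : ℝ, ξ = σ • nrm R r s f p → Psi R r s f σ x = y := by
    intro σ hσ
    unfold Psi
    rw [hpr, hx2, mul_comm, mul_smul, ← hσ, ← hyξ]
  rcases hn with hn | hn
  · left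
    have : ξ = (1 : ℝ) • nrm R r s f p := by rw [one_smul]; exact hn
    exact ⟨x, hmem 1 this, hval 1 this⟩
  · right
    have : ξ = (-1 : ℝ) • nrm R r s f p := by rw [neg_one_smul]; exact hn
    exact ⟨x, hmem (-1) this, hval (-1) this⟩

theorem image_le (σ : ℝ) (hσ : σ ^ 2 = 1) : volume (Psi R r s f σ '' Sp R r s f σ) ≤
    ∫⁻ x in Sp R r s f σ, ENNReal.ofReal ((x 2) ^ 2 * |s / r * cos (x 0)|) := by
  refine (addHaar_image_le_lintegral_abs_det_fderiv volume (h.Sp_closed σ).measurableSet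
    (fun x _ => (h.hasFDeriv σ x).hasFDerivWithinAt)).trans (le_of_eq ?_)
  apply lintegral_congr
  intro x
  rw [h.det_abs σ hσ]
  congr 3
  ring

theorem absurd (p1 : ∀ u v, f (u + 2 * π, v) = f (u, v))
    (p2 : ∀ u v, f (u, v + 2 * π) = f (u, v)) : False := by
  have hr := h.r_pos
  have hs := h.hs
  have hc : 0 ≤ s / r := by positivity
  have h1 : volume (Metric.ball (0 : E3) 1) ≤ ENNReal.ofReal (s / r * (4 * π / 3)) := by
    calc volume (Metric.ball (0 : E3) 1)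
        ≤ volume (Psi R r s f 1 '' Sp R r s f 1 ∪ Psi R r s f (-1) '' Sp R r s f (-1)) :=
          measure_mono (h.cover p1 p2)
      _ ≤ volume (Psi R r s f 1 '' Sp R r s f 1) +
            volume (Psi R r s f (-1) '' Sp R r s f (-1)) := measure_union_le _ _
      _ ≤ (∫⁻ x in Sp R r s f 1, ENNReal.ofReal ((x 2) ^ 2 * |s / r * cos (x 0)|)) +
            ∫⁻ x in Sp R r s f (-1), ENNReal.ofReal ((x 2) ^ 2 * |s / r * cos (x 0)|) :=
          add_le_add (h.image_le 1 (by norm_num)) (h.image_le (-1) (by norm_num))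
      _ = ∫⁻ x in Sp R r s f 1 ∪ Sp R r s f (-1),
            ENNReal.ofReal ((x 2) ^ 2 * |s / r * cos (x 0)|) :=
          (lintegral_union (h.Sp_closed (-1)).measurableSet h.Sp_disjoint).symm
      _ ≤ ∫⁻ x in box, ENNReal.ofReal ((x 2) ^ 2 * |s / r * cos (x 0)|) :=
          lintegral_mono_set (Set.union_subset (h.Sp_subset 1 (Or.inl rfl))
            (h.Sp_subset (-1) (Or.inr rfl)))
      _ = ENNReal.ofReal (s / r * (4 * π / 3)) := box_lintegral (s / r) hc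
  rw [EuclideanSpace.volume_ball_fin_three] at h1
  have h2 : ENNReal.ofReal 1 ^ 3 * ENNReal.ofReal (π * 4 / 3) = ENNReal.ofReal (π * 4 / 3) := by
    simp
  rw [h2] at h1
  have h3 := (ENNReal.ofReal_le_ofReal_iff (by positivity)).1 h1
  have h4 : s / r < 1 := (div_lt_one hr).2 h.hsr
  have := pi_pos
  nlinarith

end Imm

end Pool.Agent.R749.Torus
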